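import Pool.Agent.Run7.h103.Kill

set_option autoImplicit false

namespace Run7.h103

open Nat.Partrec (Code)
open Nat.Partrec.Code (evaln eval)
open Pool.Agent.Helper743 (pre use_principle TR TR_iff)
open scoped Classical

/-- solutions -/
def Sol (T : Str → Prop) (H : ℕ → Bool) : Prop :=
  {i : ℕ | H i = true}.Infinite ∧ {ρ : Str | T ρ ∧ Hom H ρ}.Infinite

/-- the sequence of trees -/
def YY (i : ℕ) (ρ : Str) : Prop :=
  ∀ d ∈ (Encodable.decode (α := Str × Code × Code × ℕ) i).toList,
    gtree (con (d.1, d.2.1, d.2.2.1, i)) ρ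

lemma YY_encode (σ : Str) (c1 c2 : Code) (k : ℕ) (ρ : Str) :
    YY (Encodable.encode (σ, c1, c2, k)) ρ ↔
      gtree (con (σ, c1, c2, Encodable.encode (σ, c1, c2, k))) ρ := by
  simp [YY, Encodable.encodek]

lemma YY_closed (i : ℕ) {σ τ : Str} (h : σ <+: τ) (hτ : YY i τ) : YY i σ :=
  fun d hd => gtree_closed (con_gad _) h (hτ d hd)

lemma YY_infinite (i : ℕ) : {ρ : Str | YY i ρ}.Infinite := by
  cases h : Encodable.decode (α := Str × Code × Code × ℕ) i with
  | none =>
    refine infinite_of_levels (fun n => ⟨res (fun _ => true) n, by simp, ?_⟩)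
    intro d hd
    rw [h] at hd
    simp at hd
  | some d =>
    refine infinite_of_levels (fun n => ⟨res (gpath (con (d.1, d.2.1, d.2.2.1, i))) n, by simp, ?_⟩)
    intro d' hd
    rw [h] at hd
    simp only [Option.toList_some, List.mem_singleton] at hd
    subst hd
    exact gtree_path (con_gad _) n

lemma YY_primrec : PrimrecPred (fun a : ℕ × Str => YY a.1 a.2) := by
  refine pall_list (f := fun a : ℕ × Str =>
    (Encodable.decode (α := Str × Code × Code × ℕ) a.1).toList) ?_ ?_
  · exact Primrec.optionToList.comp (Primrec.decode.comp Primrec.fst)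
  · have h : Primrec (fun a : (Str × Code × Code × ℕ) × (ℕ × Str) =>
        (((a.1.1, a.1.2.1, a.1.2.2.1, a.2.1), a.2.2) : Dat × Str)) := by
      refine Primrec.pair (Primrec.pair ?_ (Primrec.pair ?_ (Primrec.pair ?_ ?_))) ?_
      · exact Primrec.fst.comp Primrec.fst
      · exact Primrec.fst.comp (Primrec.snd.comp Primrec.fst)
      · exact Primrec.fst.comp (Primrec.snd.comp (Primrec.snd.comp Primrec.fst))
      · exact Primrec.fst.comp Primrec.snd
      · exact Primrec.snd.comp Primrec.snd
    exact gtree_primrec.comp h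

lemma re_code' {R : Str → Prop} (h : REPred R) :
    ∃ c : Code, ∀ ρ : Str, (eval c (Encodable.encode ρ)).Dom ↔ R ρ := by
  obtain ⟨c, hc⟩ := Nat.Partrec.Code.exists_code.1 h
  refine ⟨c, fun ρ => ?_⟩
  rw [hc]
  simp only [Encodable.encodek, Part.coe_some, Part.bind_some, Part.map_Dom]
  constructor
  · rintro ⟨h, _⟩; exact h
  · intro h; exact ⟨h, trivial⟩

lemma ev_code {ev : Str → ℕ → Option ℕ} (h : Computable₂ ev) :
    ∃ c2 : Code, ∀ τ z y, ev τ z = some y ↔ y ∈ eval c2 (Encodable.encode (τ, z)) := by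
  have hp : Partrec (fun p : Str × ℕ => (ev p.1 p.2 : Part ℕ)) :=
    Computable.ofOption (h.comp Computable.fst Computable.snd)
  obtain ⟨c, hc⟩ := Nat.Partrec.Code.exists_code.1 hp
  refine ⟨c, fun τ z y => ?_⟩
  rw [hc]
  simp [Encodable.encodek]

lemma pre_toNat (H : ℕ → Bool) (n : ℕ) :
    pre (fun n => (H n).toNat) n = (res H n).map Bool.toNat := by
  simp [pre, res, List.map_map, Function.comp_def]

/-- functionals as monotone computable maps on binary strings -/
lemma exists_ev {H : ℕ → Bool} {f : ℕ → ℕ}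
    (h : TuringReducible (fun n => Part.some (f n)) (fun n => Part.some (H n).toNat)) :
    ∃ ev : Str → ℕ → Option ℕ, Computable₂ ev ∧
      (∀ τ τ' z y, τ <+: τ' → ev τ z = some y → ev τ' z = some y) ∧
      ∀ x y, f x = y ↔ ∃ n, ev (res H n) x = some y := by
  have h1 : TR f (fun n => (H n).toNat) := TR_iff.2 h
  obtain ⟨ev0, e1, e2, e3⟩ := use_principle (fun n => (H n).toNat) _ h1
  refine ⟨fun τ z => ev0 (τ.map Bool.toNat) z, ?_, ?_, ?_⟩
  · have hb : Primrec Bool.toNat := Primrec.dom_finite _
    have hm : Primrec (fun τ : Str => τ.map Bool.toNat) :=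
      Primrec.list_map Primrec.id (hb.comp Primrec.snd).to₂
    exact e1.comp (hm.to_comp.comp Computable.fst) Computable.snd
  · intro τ τ' z y hp hh
    exact e2 _ _ _ _ (List.IsPrefix.map _ hp) hh
  · intro x y
    have := e3 x y
    simp only [pre_toNat] at this
    rw [← this]
    simp [eq_comm]

/-- good conditions -/
def Good (X : Str → Prop) (p : Str × Code) : Prop :=
  (Cls p.2).Nonempty ∧ (∀ P ∈ Cls p.2, Ones p.1 P) ∧ ∀ P ∈ Cls p.2, ∀ n, X (res P n)

/-- the requirement forced by a condition -/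
def Req (e : ℕ) (p : Str × Code) : Prop :=
  ∀ c2 k, Encodable.decode (α := Code × ℕ) e = some (c2, k) →
    ∀ ev : Str → ℕ → Option ℕ,
    (∀ τ z y, ev τ z = some y ↔ y ∈ eval c2 (Encodable.encode (τ, z))) →
    (∀ τ τ' z y, τ <+: τ' → ev τ z = some y → ev τ' z = some y) →
    ∃ i, k ≤ i ∧ ∀ H P : ℕ → Bool, res H p.1.length = p.1 → P ∈ Cls p.2 → Sub H P →
      ∀ G : ℕ → Bool, (∀ x, G x = true ↔ ∃ n, ev (res H n) (Nat.pair i x) = some 1) →
      ¬ Sol (YY i) G

lemma encode_ge (σ : Str) (c1 c2 : Code) (k : ℕ) : k ≤ Encodable.encode (σ, c1, c2, k) := by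
  rw [Encodable.encode_prod_val, Encodable.encode_prod_val, Encodable.encode_prod_val]
  exact (Nat.right_le_pair _ _).trans ((Nat.right_le_pair _ _).trans (Nat.right_le_pair _ _))

lemma req_dense {X : Str → Prop} {p : Str × Code} (hp : Good X p) (e : ℕ) :
    ∃ q : Str × Code, Good X q ∧ p.1 <+: q.1 ∧ Cls q.2 ⊆ Cls p.2 ∧ Req e q := by
  by_cases h : ∃ c2 k, Encodable.decode (α := Code × ℕ) e = some (c2, k) ∧
      ∃ ev : Str → ℕ → Option ℕ,
      (∀ τ z y, ev τ z = some y ↔ y ∈ eval c2 (Encodable.encode (τ, z))) ∧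
      (∀ τ τ' z y, τ <+: τ' → ev τ z = some y → ev τ' z = some y)
  · obtain ⟨c2, k, hd, ev, hev, hmono⟩ := h
    obtain ⟨σ', c', h1, h2, h3, h4, h5⟩ := kill p.1 p.2 c2 (Encodable.encode (p.1, p.2, c2, k))
      ev hev hmono hp.1
    refine ⟨(σ', c'), ⟨h3, h4 hp.2.1, fun P hP => hp.2.2 P (h2 hP)⟩, h1, h2, ?_⟩
    intro c2' k' hd' ev' hev' hmono'
    rw [hd] at hd'
    simp only [Option.some.injEq, Prod.mk.injEq] at hd'
    obtain ⟨rfl, rfl⟩ := hd'
    refine ⟨Encodable.encode (p.1, p.2, c2, k), encode_ge _ _ _ _, ?_⟩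
    intro H P hH hP hHP G hG
    have := h5 H P hH hP hHP G (by
      intro x
      rw [hG]
      constructor
      · rintro ⟨n, hn⟩; exact ⟨n, by rw [hev, ← hev']; exact hn⟩
      · rintro ⟨n, hn⟩; exact ⟨n, by rw [hev', ← hev]; exact hn⟩)
    intro hsol
    apply this
    refine ⟨hsol.1, ?_⟩
    convert hsol.2 using 3
    rw [YY_encode]
  · refine ⟨p, hp, List.prefix_refl _, subset_refl _, ?_⟩
    intro c2 k hd ev hev hmono
    exact absurd ⟨c2, k, hd, ev, hev, hmono⟩ h

lemma grow {X : Str → Prop}
    (hX : ¬ ∃ H : ℕ → Bool, Computable H ∧ Sol X H)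
    {p : Str × Code} (hp : Good X p) :
    ∃ q : Str × Code, Good X q ∧ p.1 <+: q.1 ∧ Cls q.2 ⊆ Cls p.2 ∧
      ∃ z, p.1.length ≤ z ∧ q.1[z]? = some true := by
  have hex : ∃ P ∈ Cls p.2, ∃ z, p.1.length ≤ z ∧ P z = true := by
    by_contra hcon
    push Not at hcon
    apply hX
    obtain ⟨P, hP⟩ := hp.1
    refine ⟨fun z => decide (p.1.length ≤ z), ?_, ?_, ?_⟩
    · have : PrimrecPred (fun z => p.1.length ≤ z) := Primrec.nat_le.comp (Primrec.const _) Primrec.id
      exact this.decide.to_comp
    · refine Set.infinite_of_forall_exists_gt (fun a => ⟨a + p.1.length + 1, ?_, by omega⟩)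
      simp only [Set.mem_ofPred_eq, decide_eq_true_eq]
      omega
    · refine infinite_of_levels (fun n => ⟨res P n, by simp, hp.2.2 P hP n, false, ?_⟩)
      intro i hi b hb
      rw [res_get] at hb
      split_ifs at hb
      simp only [decide_eq_true_eq] at hi
      have := hcon P hP i hi
      simp only [Option.some.injEq] at hb
      rw [← hb]
      simpa using this
  obtain ⟨P, hP, z, hz, hPz⟩ := hex
  set σ' : Str := p.1 ++ (List.replicate (z - p.1.length) false ++ [true]) with hσ'
  have hget : ∀ y : ℕ, σ'[y]? = some true → p.1[y]? = some true ∨ y = z := by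
    intro y hy
    rcases lt_or_ge y p.1.length with hlt | hge
    · left; rwa [hσ', List.getElem?_append_left hlt] at hy
    · right
      rw [hσ', List.getElem?_append_right hge] at hy
      rcases lt_or_ge (y - p.1.length) (z - p.1.length) with h1 | h1
      · rw [List.getElem?_append_left (by simpa using h1)] at hy
        simp [h1] at hy
      · rw [List.getElem?_append_right (by simpa using h1)] at hy
        have := (List.getElem?_eq_some_iff.1 hy).1
        simp at this
        omega
  have hOnes : Ones σ' P := by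
    intro y hy
    rcases hget y hy with h | rfl
    · exact hp.2.1 P hP y h
    · exact hPz
  obtain ⟨c, hc⟩ := shrink p.2 σ' (Q := fun _ => False) pfalse
  refine ⟨(σ', c), ⟨⟨P, (hc P).2 ⟨hP, hOnes, by simp⟩⟩, fun P hP => ((hc P).1 hP).2.1,
    fun P hP => hp.2.2 P ((hc P).1 hP).1⟩, List.prefix_append _ _, fun P hP => ((hc P).1 hP).1,
    z, hz, ?_⟩
  simp only [hσ']
  rw [List.getElem?_append_right hz, List.getElem?_append_right (by simp)]
  simp

/-- the case of an instance with a computable solution -/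
lemma case_computable {H : ℕ → Bool} (hH : Computable H) {G : ℕ → ℕ → Bool}
    (hG : TuringReducible (fun n => Part.some (G n.unpair.1 n.unpair.2).toNat)
      (fun n => Part.some (H n).toNat)) (k : ℕ) :
    ∃ i, k ≤ i ∧ ¬ Sol (YY i) (G i) := by
  obtain ⟨ev, e1, e2, e3⟩ := exists_ev (f := fun n => (G n.unpair.1 n.unpair.2).toNat) hG
  set ev' : Str → ℕ → Option ℕ := fun τ z => ev (res H τ.length) z with hev'
  have c1' : Computable (fun n => res H n) := by
    have h : Computable₂ (fun (_ : ℕ) (p : ℕ × Str) => p.2 ++ [H p.1]) :=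
      Computable.list_concat.comp (Computable.snd.comp Computable.snd)
        (hH.comp (Computable.fst.comp Computable.snd))
    refine (Computable.nat_rec (f := fun n : ℕ => n) (g := fun _ => ([] : Str)) Computable.id
      (Computable.const _) h).of_eq (fun n => ?_)
    induction n with
    | zero => rfl
    | succ n ih => rw [res_succ, ← ih]
  have hcomp : Computable₂ ev' := e1.comp (c1'.comp (Computable.list_length.comp Computable.fst))
    Computable.snd
  obtain ⟨c2, hc2⟩ := ev_code hcomp
  obtain ⟨c1, hc1⟩ := re_code (Q := fun _ => False) pfalse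
  have hne : (Cls c1).Nonempty := ⟨fun _ => true, fun n => by rw [hc1]; simp⟩
  obtain ⟨σ', c', h1, h2, ⟨P, hP⟩, h4, h5⟩ := kill [] c1 c2 (Encodable.encode (([] : Str), c1, c2, k))
    ev' hc2 (fun τ τ' z y hp hh => e2 _ _ _ _ (res_mono H hp.length_le) hh) hne
  refine ⟨Encodable.encode (([] : Str), c1, c2, k), encode_ge _ _ _ _, fun hsol => ?_⟩
  have hO : Ones σ' P := h4 (fun P _ z hz => by simp at hz) P hP
  refine h5 (fun n => σ'.getD n false) P (res_getD σ') hP ?_
    (G (Encodable.encode (([] : Str), c1, c2, k))) ?_ ⟨hsol.1, ?_⟩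
  · intro z hz
    apply hO z
    simp only [List.getD_eq_getElem?_getD] at hz
    cases h : σ'[z]? with
    | none => rw [h] at hz; simp at hz
    | some b => rw [h] at hz; simp only [Option.getD_some] at hz; rw [hz]
  · intro x
    have := e3 (Nat.pair (Encodable.encode (([] : Str), c1, c2, k)) x) 1
    simp only [Nat.unpair_pair] at this
    simp only [hev', res_length]
    rw [← this]
    cases G (Encodable.encode (([] : Str), c1, c2, k)) x <;> simp
  · convert hsol.2 using 3
    rw [YY_encode]

/-- the generic sequence of conditions -/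
lemma generic {X : Str → Prop} (hX : ¬ ∃ H : ℕ → Bool, Computable H ∧ Sol X H)
    {p0 : Str × Code} (hp0 : Good X p0) :
    ∃ p : ℕ → Str × Code, (∀ n, Good X (p n)) ∧ (∀ n, (p n).1 <+: (p (n+1)).1) ∧
      (∀ n, Cls (p (n+1)).2 ⊆ Cls (p n).2) ∧
      (∀ n, ∃ z, (p n).1.length ≤ z ∧ (p (n+1)).1[z]? = some true) ∧
      ∀ n, Req n (p (n+1)) := by
  have step : ∀ (n : ℕ) (p : {p : Str × Code // Good X p}), ∃ q : {p : Str × Code // Good X p},
      p.1.1 <+: q.1.1 ∧ Cls q.1.2 ⊆ Cls p.1.2 ∧ (∃ z, p.1.1.length ≤ z ∧ q.1.1[z]? = some true) ∧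
        Req n q.1 := by
    rintro n ⟨p, hp⟩
    obtain ⟨q, g1, g2, g3, z, g4, g5⟩ := grow hX hp
    obtain ⟨r, k1, k2, k3, k4⟩ := req_dense g1 n
    exact ⟨⟨r, k1⟩, g2.trans k2, k3.trans g3, ⟨z, g4, prefix_get k2 g5⟩, k4⟩
  choose f hf using step
  refine ⟨fun n => (Nat.rec ⟨p0, hp0⟩ (fun n p => f n p) n : {p : Str × Code // Good X p}).1,
    fun n => Subtype.property _, fun n => (hf n _).1, fun n => (hf n _).2.1,
    fun n => (hf n _).2.2.1, fun n => (hf n _).2.2.2⟩

theorem seq_main :
    ∀ X : Str → Prop, ComputablePred X →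
      (∀ σ τ : Str, σ <+: τ → X τ → X σ) → {σ : Str | X σ}.Infinite →
      ∃ H : ℕ → Bool, Sol X H ∧ ∀ G : ℕ → ℕ → Bool,
        TuringReducible (fun n => Part.some (G n.unpair.1 n.unpair.2).toNat)
          (fun n => Part.some (H n).toNat) →
        ∀ k, ∃ i, k ≤ i ∧ ¬ Sol (YY i) (G i) := by
  intro X hXc hXt hXi
  by_cases hX : ∃ H : ℕ → Bool, Computable H ∧ Sol X H
  · obtain ⟨H, hH, hS⟩ := hX
    exact ⟨H, hS, fun G hG k => case_computable hH hG k⟩
  · obtain ⟨c0, hc0⟩ := re_code' hXc.not.to_re
    have hcls : ∀ P, P ∈ Cls c0 ↔ ∀ n, X (res P n) := by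
      intro P
      rw [mem_Cls]
      simp [hc0]
    have hne : (Cls c0).Nonempty := by
      obtain ⟨P, hP⟩ := konig (fun _ ρ => X ρ) (by
        intro n
        by_contra hcon
        push Not at hcon
        apply hXi
        apply finite_of_bdd (n := n)
        intro σ hσ
        by_contra hl
        push Not at hl
        refine hcon (σ.take n) (by simp; omega) (hXt _ _ (List.take_prefix _ _) hσ)) (by
        intro n P h
        exact hXt _ _ (res_mono P (Nat.le_succ n)) h)
      exact ⟨P, (hcls P).2 hP⟩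
    have hgood : Good X ([], c0) := ⟨hne, fun P _ z hz => by simp at hz, fun P hP => (hcls P).1 hP⟩
    obtain ⟨p, h1, h2, h3, h4, h5⟩ := generic hX hgood
    -- lengths
    have hlen : ∀ n, n ≤ (p n).1.length := by
      intro n
      induction n with
      | zero => omega
      | succ n ih =>
        obtain ⟨z, hz, hz'⟩ := h4 n
        have := (List.getElem?_eq_some_iff.1 hz').1
        omega
    have hpre : ∀ n m, n ≤ m → (p n).1 <+: (p m).1 := by
      intro n m h
      induction m, h using Nat.le_induction with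
      | base => exact List.prefix_refl _
      | succ m _ ih => exact ih.trans (h2 m)
    set H : ℕ → Bool := fun x => (p (x+1)).1.getD x false with hHdef
    have hH : ∀ n, ∀ x < (p n).1.length, (p n).1[x]? = some (H x) := by
      intro n x hx
      have hx' : x < (p (x+1)).1.length := by have := hlen (x+1); omega
      have e1 : (p (x+1)).1[x]? = some (H x) := by
        simp only [hHdef]
        rw [List.getD_eq_getElem?_getD, List.getElem?_eq_getElem hx']
        simp
      rcases le_total n (x+1) with h | h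
      · rw [← e1]; exact (prefix_get_eq (hpre _ _ h) hx).symm
      · rw [← e1]; exact prefix_get_eq (hpre _ _ h) hx'
    have hres : ∀ n, res H (p n).1.length = (p n).1 := by
      intro n
      apply List.ext_getElem?
      intro x
      rw [res_get]
      split_ifs with h
      · exact (hH n x h).symm
      · rw [List.getElem?_eq_none (by omega)]
    -- a common path
    have hclosed : ∀ c, IsClosed (Cls c) := by
      intro c
      have : Cls c = ⋂ n, {P : ℕ → Bool | ¬ (eval c (Encodable.encode (res P n))).Dom} := by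
        ext P; simp [Cls]
      rw [this]
      exact isClosed_iInter (fun n => isClosed_cyl n (fun ρ => ¬ (eval c (Encodable.encode ρ)).Dom))
    obtain ⟨P, hP⟩ := IsCompact.nonempty_iInter_of_sequence_nonempty_isCompact_isClosed
      (fun n => Cls (p n).2) h3 (fun n => (h1 n).1) (hclosed _).isCompact (fun n => hclosed _)
    simp only [Set.mem_iInter] at hP
    have hsub : Sub H P := by
      intro z hz
      have hz' : z < (p (z+1)).1.length := by have := hlen (z+1); omega
      exact (h1 (z+1)).2.1 P (hP (z+1)) z (by rw [hH (z+1) z hz', hz])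
    refine ⟨H, ⟨?_, ?_⟩, ?_⟩
    · refine Set.infinite_of_forall_exists_gt (fun a => ?_)
      obtain ⟨z, hz, hz'⟩ := h4 (a+1)
      refine ⟨z, ?_, by have := hlen (a+1); omega⟩
      have := hH (a+2) z (List.getElem?_eq_some_iff.1 hz').1
      rw [hz'] at this
      simpa using this.symm
    · refine infinite_of_levels (fun n => ⟨res P n, by simp, (hcls P).1 ?_ n, true, ?_⟩)
      · rw [hcls]; exact (h1 0).2.2 P (hP 0)
      · intro i hi b hb
        rw [res_get] at hb
        split_ifs at hb
        simp only [Option.some.injEq] at hb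
        rw [← hb]
        exact hsub i hi
    · intro G hG k
      obtain ⟨ev, e1, e2, e3⟩ := exists_ev (f := fun n => (G n.unpair.1 n.unpair.2).toNat) hG
      obtain ⟨c2, hc2⟩ := ev_code e1
      obtain ⟨i, hi, hkill⟩ := h5 (Encodable.encode (c2, k)) c2 k (Encodable.encodek _) ev hc2 e2
      refine ⟨i, hi, hkill H P (hres _) (hP _) hsub (G i) ?_⟩
      intro x
      have := e3 (Nat.pair i x) 1
      simp only [Nat.unpair_pair] at this
      rw [← this]
      cases G i x <;> simp

end Run7.h103
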