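import Mathlib
import Pool.Agent.Helper743.Oracle

/-! Basic material on strings, compactness of Cantor space, and stage-wise approximations. -/

set_option autoImplicit false

namespace Run7.h103

open Nat.Partrec (Code)

abbrev Str := List Bool

/-- the string of the first `n` values of `P` -/
def res (P : ℕ → Bool) (n : ℕ) : Str := (List.range n).map P

@[simp] lemma res_length (P : ℕ → Bool) (n : ℕ) : (res P n).length = n := by simp [res]

lemma res_get (P : ℕ → Bool) (n x : ℕ) : (res P n)[x]? = if x < n then some (P x) else none := by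
  unfold res
  by_cases h : x < n <;> simp [h]

lemma res_succ (P : ℕ → Bool) (n : ℕ) : res P (n+1) = res P n ++ [P n] := by
  simp [res, List.range_succ]

lemma res_mono (P : ℕ → Bool) {n m : ℕ} (h : n ≤ m) : res P n <+: res P m := by
  obtain ⟨k, rfl⟩ := Nat.exists_eq_add_of_le h
  induction k with
  | zero => simp
  | succ k ih =>
    rw [← Nat.add_assoc, res_succ]
    exact (ih (by omega)).trans (List.prefix_append _ _)

lemma res_take (P : ℕ → Bool) {n m : ℕ} (h : n ≤ m) : (res P m).take n = res P n := by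
  have := res_mono P h
  rw [List.prefix_iff_eq_take] at this
  rw [this]; simp

lemma res_congr {P Q : ℕ → Bool} {n : ℕ} (h : ∀ x < n, P x = Q x) : res P n = res Q n := by
  unfold res
  apply List.map_congr_left
  intro a ha
  exact h a (List.mem_range.1 ha)

/-- every string is a restriction -/
lemma res_getD (ρ : Str) : res (fun n => ρ.getD n false) ρ.length = ρ := by
  apply List.ext_getElem?
  intro i
  rw [res_get]
  by_cases h : i < ρ.length
  · simp [h]
  · simp [h]

lemma prefix_get {σ τ : Str} (h : σ <+: τ) {z : ℕ} {b : Bool} (hz : σ[z]? = some b) :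
    τ[z]? = some b := by
  obtain ⟨ρ, rfl⟩ := h
  rw [List.getElem?_append_left]
  · exact hz
  · exact (List.getElem?_eq_some_iff.1 hz).1

lemma prefix_get_eq {σ τ : Str} (h : σ <+: τ) {z : ℕ} (hz : z < σ.length) :
    τ[z]? = σ[z]? := by
  obtain ⟨ρ, rfl⟩ := h
  rw [List.getElem?_append_left hz]

/-- the ones of `τ` are ones of `ρ` -/
def ones (τ ρ : Str) : Prop := ∀ z < τ.length, τ[z]? = some true → ρ[z]? = some true

lemma ones_mono {τ ρ ρ' : Str} (h : ones τ ρ) (hp : ρ <+: ρ') : ones τ ρ' :=
  fun z hz hh => prefix_get hp (h z hz hh)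

lemma ones_iff {τ ρ : Str} : ones τ ρ ↔ ∀ z : ℕ, τ[z]? = some true → ρ[z]? = some true := by
  constructor
  · intro h z hz
    exact h z (List.getElem?_eq_some_iff.1 hz).1 hz
  · intro h z _ hz
    exact h z hz

lemma res_eq_ofFn (P : ℕ → Bool) (n : ℕ) : res P n = List.ofFn (fun i : Fin n => P i) := by
  apply List.ext_getElem?
  intro i
  rw [res_get]
  by_cases h : i < n
  · simp [h]
  · simp [h]

lemma isClosed_cyl (n : ℕ) (K : Str → Prop) : IsClosed {P : ℕ → Bool | K (res P n)} := by
  have : {P : ℕ → Bool | K (res P n)} =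
      (fun (P : ℕ → Bool) (i : Fin n) => P i) ⁻¹' {v | K (List.ofFn v)} := by
    ext P
    simp [res_eq_ofFn]
  rw [this]
  apply IsClosed.preimage
  · fun_prop
  · exact isClosed_discrete _

/-- König's lemma in the form used here -/
lemma konig (K : ℕ → Str → Prop)
    (hne : ∀ n, ∃ ρ : Str, ρ.length = n ∧ K n ρ)
    (hdec : ∀ n (P : ℕ → Bool), K (n+1) (res P (n+1)) → K n (res P n)) :
    ∃ P : ℕ → Bool, ∀ n, K n (res P n) := by
  have h := IsCompact.nonempty_iInter_of_sequence_nonempty_isCompact_isClosed
    (fun n => {P : ℕ → Bool | K n (res P n)})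
    (fun n P hP => hdec n P hP)
    (fun n => by
      obtain ⟨ρ, hl, hK⟩ := hne n
      refine ⟨fun n => ρ.getD n false, ?_⟩
      simp only [Set.mem_ofPred_eq]
      rw [← hl, res_getD, hl]
      exact hK)
    (isClosed_cyl 0 _).isCompact
    (fun n => isClosed_cyl n _)
  obtain ⟨P, hP⟩ := h
  simp only [Set.mem_iInter] at hP
  exact ⟨P, hP⟩

end Run7.h103
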