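import Pool.Agent.Run7.h103.Stage

set_option autoImplicit false

namespace Run7.h103

open Nat.Partrec (Code)
open Nat.Partrec.Code (evaln eval)
open scoped Classical

/-- well-formed sequences of constraints: `con s = some (x, j)` says that at stage `s` the
constraint `Q y ≠ Q x` for `j ≤ y < s` is imposed -/
structure Gad (con : ℕ → Option (ℕ × ℕ)) : Prop where
  lt : ∀ s x j, con s = some (x, j) → x < j ∧ j ≤ s
  dis : ∀ s s' x j x' j', s < s' → con s = some (x, j) → con s' = some (x', j') → s ≤ j'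

def gtree (con : ℕ → Option (ℕ × ℕ)) (σ : Str) : Prop :=
  ∀ s < σ.length, ∀ v ∈ (con s).toList, ∀ y < s, v.2 ≤ y → σ[y]? ≠ σ[v.1]?

lemma gtree_closed {con : ℕ → Option (ℕ × ℕ)} (hg : Gad con) {σ τ : Str} (h : σ <+: τ)
    (hτ : gtree con τ) : gtree con σ := by
  intro s hs v hv y hy hvy
  have hl := h.length_le
  have := hτ s (by omega) v hv y hy hvy
  rw [prefix_get_eq h (by omega), prefix_get_eq h] at this
  · exact this
  · have h1 : con s = some (v.1, v.2) := by simpa [Option.mem_toList] using hv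
    have := hg.lt _ _ _ h1
    omega

/-- the canonical path -/
noncomputable def gpath (con : ℕ → Option (ℕ × ℕ)) (y : ℕ) : Bool :=
  if h : ∃ x : ℕ, x < y ∧ ∃ s j, con s = some (x, j) ∧ j ≤ y ∧ y < s then
    !(gpath con h.choose) else true
termination_by y
decreasing_by exact h.choose_spec.1

lemma gpath_spec {con : ℕ → Option (ℕ × ℕ)} (hg : Gad con) {s x j y : ℕ}
    (h : con s = some (x, j)) (h1 : j ≤ y) (h2 : y < s) : gpath con y = !(gpath con x) := by
  have hex : ∃ x : ℕ, x < y ∧ ∃ s j, con s = some (x, j) ∧ j ≤ y ∧ y < s :=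
    ⟨x, by have := hg.lt _ _ _ h; omega, s, j, h, h1, h2⟩
  rw [gpath, dif_pos hex]
  congr 2
  obtain ⟨_, s', j', h', h1', h2'⟩ := hex.choose_spec
  have : s = s' := by
    by_contra hne
    rcases lt_or_gt_of_ne hne with hlt | hlt
    · have := hg.dis _ _ _ _ _ _ hlt h h'
      omega
    · have := hg.dis _ _ _ _ _ _ hlt h' h
      omega
  subst this
  rw [h] at h'
  simp only [Option.some.injEq, Prod.mk.injEq] at h'
  exact h'.1.symm

lemma gtree_path {con : ℕ → Option (ℕ × ℕ)} (hg : Gad con) (n : ℕ) :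
    gtree con (res (gpath con) n) := by
  intro s hs v hv y hy hvy
  have h1 : con s = some (v.1, v.2) := by simpa [Option.mem_toList] using hv
  have h2 := hg.lt _ _ _ h1
  rw [res_length] at hs
  rw [res_get, res_get, if_pos (by omega), if_pos (by omega),
    gpath_spec hg h1 hvy hy]
  simp

lemma infinite_of_levels {T : Str → Prop} (h : ∀ n, ∃ σ : Str, σ.length = n ∧ T σ) :
    {σ : Str | T σ}.Infinite := by
  intro hf
  obtain ⟨N, hN⟩ := (hf.image List.length).bddAbove
  obtain ⟨σ, hl, hσ⟩ := h (N+1)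
  have := hN (Set.mem_image_of_mem _ (show σ ∈ {σ : Str | T σ} from hσ))
  omega

lemma gtree_infinite {con : ℕ → Option (ℕ × ℕ)} (hg : Gad con) :
    {σ : Str | gtree con σ}.Infinite :=
  infinite_of_levels (fun n => ⟨_, res_length _ n, gtree_path hg n⟩)

/-- `G` is homogeneous for `σ` -/
def Hom (G : ℕ → Bool) (σ : Str) : Prop :=
  ∃ c : Bool, ∀ i : ℕ, G i = true → ∀ b : Bool, σ[i]? = some b → b = c

lemma finite_of_bdd {S : Set Str} {n : ℕ} (h : ∀ σ ∈ S, σ.length ≤ n) : S.Finite := by
  refine Set.Finite.subset (List.finite_toSet (upTo n)) ?_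
  intro σ hσ
  exact mem_upTo.2 (h σ hσ)

/-- a set with two elements in different halves of a constraint is not a solution -/
lemma gad_kill {con : ℕ → Option (ℕ × ℕ)} (hg : Gad con) {s x j y : ℕ}
    (h : con s = some (x, j)) (h1 : j ≤ y) (h2 : y < s) {G : ℕ → Bool}
    (hx : G x = true) (hy : G y = true) :
    ¬ {σ : Str | gtree con σ ∧ Hom G σ}.Infinite := by
  intro hinf
  apply hinf
  apply finite_of_bdd (n := s)
  rintro σ ⟨hσ, c, hc⟩
  by_contra hlen
  push Not at hlen
  have h3 := hσ s hlen (x, j) (by simp [h]) y h2 h1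
  have hlt := hg.lt _ _ _ h
  have hys : y < σ.length := by omega
  have hxs : x < σ.length := by omega
  apply h3
  rw [List.getElem?_eq_getElem hys, List.getElem?_eq_getElem hxs]
  congr 1
  rw [hc y hy _ (List.getElem?_eq_getElem hys), hc x hx _ (List.getElem?_eq_getElem hxs)]

end Run7.h103
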