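import Pool.Agent.Run7.h103.Proc

set_option autoImplicit false

namespace Run7.h103

open Nat.Partrec (Code)
open Nat.Partrec.Code (evaln eval)
open scoped Classical

/-- the effectively closed class of sequences none of whose restrictions is enumerated by `c` -/
def Cls (c : Code) : Set (ℕ → Bool) := {P | ∀ n, ¬ (eval c (Encodable.encode (res P n))).Dom}

lemma mem_Cls {c : Code} {P : ℕ → Bool} :
    P ∈ Cls c ↔ ∀ n, ¬ (eval c (Encodable.encode (res P n))).Dom := Iff.rfl

lemma alive_of_mem {c : Code} {P : ℕ → Bool} (h : P ∈ Cls c) (s : ℕ) {m : ℕ} (hm : s ≤ m) :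
    alive c s (res P m) := by
  intro n hn
  rw [res_take P (by omega)]
  by_contra hne
  obtain ⟨v, hv⟩ := Option.ne_none_iff_exists'.1 hne
  exact h n (Part.dom_iff_mem.2 ⟨v, Nat.Partrec.Code.evaln_sound (show v ∈ evaln s c _ from hv)⟩)

lemma mem_of_alive {c : Code} {P : ℕ → Bool} (h : ∀ s, alive c s (res P s)) : P ∈ Cls c := by
  intro n hd
  obtain ⟨v, hv⟩ := Part.dom_iff_mem.1 hd
  obtain ⟨k, hk⟩ := Nat.Partrec.Code.evaln_complete.1 hv
  have h1 := h (max n k) n (by omega)
  rw [res_take P (by omega)] at h1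
  have := Nat.Partrec.Code.evaln_mono (le_max_right n k) hk
  rw [h1] at this
  simp at this

lemma re_code {Q : Str × ℕ → Prop} (hQ : PrimrecPred Q) :
    ∃ c : Code, ∀ ρ : Str, (eval c (Encodable.encode ρ)).Dom ↔ ∃ s, Q (ρ, s) := by
  have hp : Partrec (fun ρ : Str => Nat.rfind (fun s => Part.some (decide (Q (ρ, s))))) := by
    apply Partrec.rfind
    exact hQ.decide.to_comp.partrec
  obtain ⟨c, hc⟩ := Nat.Partrec.Code.exists_code.1 hp
  refine ⟨c, fun ρ => ?_⟩
  rw [hc]
  simp only [Encodable.encodek, Part.coe_some, Part.bind_some, Part.map_Dom]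
  refine Iff.trans (Nat.rfind_dom (p := fun s => Part.some (decide (Q (ρ, s))))) ?_
  constructor
  · rintro ⟨n, hn, _⟩
    exact ⟨n, by simpa using hn⟩
  · rintro ⟨n, hn⟩
    exact ⟨n, by simpa using hn, fun _ => trivial⟩

lemma pfalse {α : Type*} [Primcodable α] : PrimrecPred (fun _ : α => False) :=
  (Primrec.eq.comp (Primrec.const (α := α) 0) (Primrec.const 1)).of_eq (by simp)

/-- violating the ones of `τ` -/
def viol (τ ρ : Str) : Prop := ∃ z < τ.length, τ[z]? = some true ∧ ρ[z]? = some false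

lemma viol_pr {α : Type*} [Primcodable α] {τ ρ : α → Str} (hτ : Primrec τ) (hρ : Primrec ρ) :
    PrimrecPred (fun a => viol (τ a) (ρ a)) := by
  refine pex_lt (Primrec.list_length.comp hτ) ?_
  exact PrimrecPred.and (Primrec.eq.comp (Primrec.list_getElem?.comp (hτ.comp Primrec.snd) Primrec.fst)
        (Primrec.const _)) (Primrec.eq.comp (Primrec.list_getElem?.comp (hρ.comp Primrec.snd) Primrec.fst)
        (Primrec.const _))

/-- the ones of `τ` belong to `P` -/
def Ones (τ : Str) (P : ℕ → Bool) : Prop := ∀ z : ℕ, τ[z]? = some true → P z = true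

lemma ones_res {τ : Str} {P : ℕ → Bool} {n : ℕ} (h : ones τ (res P n)) : Ones τ P := by
  intro z hz
  have := ones_iff.1 h z hz
  rw [res_get] at this
  split_ifs at this with h1
  simpa using this

lemma Ones.res {τ : Str} {P : ℕ → Bool} (h : Ones τ P) {n : ℕ} (hn : τ.length ≤ n) :
    ones τ (res P n) := by
  intro z hz hh
  rw [res_get, if_pos (by omega), h z hh]

lemma not_viol {τ : Str} {P : ℕ → Bool} (h : Ones τ P) (n : ℕ) : ¬ viol τ (res P n) := by
  rintro ⟨z, hz, h1, h2⟩
  rw [res_get] at h2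
  split_ifs at h2
  rw [h z h1] at h2
  simp at h2

lemma Ones_of_not_viol {τ : Str} {P : ℕ → Bool} (h : ¬ viol τ (res P τ.length)) : Ones τ P := by
  intro z hz
  have hl := (List.getElem?_eq_some_iff.1 hz).1
  by_contra hne
  apply h
  refine ⟨z, hl, hz, ?_⟩
  rw [res_get, if_pos hl]
  simpa using hne

/-- shrink a class by primitive recursive stage conditions -/
lemma shrink (c1 : Code) (τ : Str) {Q : Str × ℕ → Prop} (hQ : PrimrecPred Q) :
    ∃ c : Code, ∀ P, P ∈ Cls c ↔ P ∈ Cls c1 ∧ Ones τ P ∧ ∀ n s, ¬ Q (res P n, s) := by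
  have h : PrimrecPred (fun a : Str × ℕ =>
      (¬ alive c1 a.2 (a.1) ∧ a.1.length = a.2) ∨ viol τ a.1 ∨ Q a) := by
    refine PrimrecPred.or ?_ (PrimrecPred.or ?_ hQ)
    · exact PrimrecPred.and (alive_pr (Primrec.const c1) Primrec.snd Primrec.fst).not
        (Primrec.eq.comp (Primrec.list_length.comp Primrec.fst) Primrec.snd)
    · exact viol_pr (Primrec.const τ) Primrec.fst
  obtain ⟨c, hc⟩ := re_code h
  refine ⟨c, fun P => ?_⟩
  rw [mem_Cls]
  simp only [hc]
  constructor
  · intro hP
    push Not at hP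
    refine ⟨mem_of_alive (fun s => ?_), Ones_of_not_viol (fun hv => ?_), fun n s hq => ?_⟩
    · by_contra hna
      exact (hP s s).1 hna (by simp)
    · exact (hP τ.length 0).2.1 hv
    · exact (hP n s).2.2 hq
  · rintro ⟨h1, h2, h3⟩ n ⟨s, h4 | h4 | h4⟩
    · obtain ⟨h4, h5⟩ := h4
      rw [res_length] at h5
      subst h5
      exact h4 (alive_of_mem h1 _ (le_refl _))
    · exact not_viol h2 _ h4
    · exact h3 _ _ h4

/-- `H` is subset of `P` -/
def Sub (H P : ℕ → Bool) : Prop := ∀ z, H z = true → P z = true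

lemma Sub.ones {H P : ℕ → Bool} (h : Sub H P) (n : ℕ) : ones (res H n) (res P n) := by
  intro z hz hh
  rw [res_get] at hh ⊢
  split_ifs at hh ⊢ with h1
  simp only [Option.some.injEq] at hh ⊢
  exact h z hh

section
variable {σ : Str} {c1 c2 : Code} {i : ℕ} {ev : Str → ℕ → Option ℕ}

lemma out_iff (hev : ∀ τ z y, ev τ z = some y ↔ y ∈ eval c2 (Encodable.encode (τ, z)))
    {τ : Str} {z : ℕ} : ev τ z = some 1 ↔ ∃ s, out c2 s τ z := by
  rw [hev, Nat.Partrec.Code.evaln_complete]
  rfl

theorem kill (σ : Str) (c1 c2 : Code) (i : ℕ) (ev : Str → ℕ → Option ℕ)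
    (hev : ∀ τ z y, ev τ z = some y ↔ y ∈ eval c2 (Encodable.encode (τ, z)))
    (hmono : ∀ τ τ' z y, τ <+: τ' → ev τ z = some y → ev τ' z = some y)
    (hne : (Cls c1).Nonempty) :
    ∃ σ' c1', σ <+: σ' ∧ Cls c1' ⊆ Cls c1 ∧ (Cls c1').Nonempty ∧
      ((∀ P ∈ Cls c1, Ones σ P) → ∀ P ∈ Cls c1', Ones σ' P) ∧
      ∀ H P : ℕ → Bool, res H σ'.length = σ' → P ∈ Cls c1' → Sub H P →
      ∀ G : ℕ → Bool, (∀ x, G x = true ↔ ∃ n, ev (res H n) (Nat.pair i x) = some 1) →
      ¬ ({x | G x = true}.Infinite ∧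
        {ρ : Str | gtree (con (σ, c1, c2, i)) ρ ∧ Hom G ρ}.Infinite) := by
  by_cases h1 : ∃ t, step1 σ c1 c2 i t
  · -- the first step is completed
    obtain ⟨t0, ht0⟩ := h1
    set p : Dat := (σ, c1, c2, i) with hp
    have hst : ∃ s q, st p s = some q := by
      cases h : st p t0 with
      | none =>
        refine ⟨t0 + 1, (t0, t0, []), ?_⟩
        rw [st_succ, h, nxt_none, if_pos ht0]
      | some q => exact ⟨t0, q, h⟩
    obtain ⟨s1, q1, hq1⟩ := hst
    obtain ⟨s0, q, _, hq, _, hstab⟩ := st_stable hq1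
    obtain ⟨i1, i2, i3, i4, i5⟩ := st_inv p s0 q hq
    obtain ⟨P0, hP0⟩ := hne
    obtain ⟨x, hxt, hx⟩ := i5 (res P0 q.1) (mem_allStr.2 (by simp))
      (alive_of_mem hP0 _ (le_refl _))
    by_cases hxA : x ∈ q.2.2
    · -- the option has acted
      obtain ⟨s, j, hcon, q', hq', hq'1⟩ := mem_acted q hq x hxA
      obtain ⟨q'', g1, g2, g3, g4, g5⟩ := con_some hcon
      rw [hq'] at g1
      simp only [Option.some.injEq] at g1
      subst g1
      rw [hq'1] at g5
      have hts : q.1 ≤ s := by
        have := st_inv p s q' hq'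
        omega
      obtain ⟨τ, k1, k2, k3, k4, y, hy, k5, k6⟩ := g5 (res P0 s) (mem_allStr.2 (by simp))
        (alive_of_mem hP0 _ (le_refl _)) ((hasx_local hts).2 hx)
      obtain ⟨c, hc⟩ := shrink c1 τ (Q := fun _ => False) pfalse
      refine ⟨τ, c, k2, fun P hP => ((hc P).1 hP).1, ⟨P0, (hc P0).2 ⟨hP0, ones_res k3, by simp⟩⟩,
        fun _ P hP => ((hc P).1 hP).2.1, ?_⟩
      intro H P hH hP hHP G hG
      rintro ⟨_, hinf⟩
      refine gad_kill (con_gad p) hcon k5 hy ?_ ?_ hinf
      · rw [hG]; exact ⟨τ.length, by rw [hH]; exact (out_iff hev).2 ⟨_, k4⟩⟩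
      · rw [hG]; exact ⟨τ.length, by rw [hH]; exact (out_iff hev).2 ⟨_, k6⟩⟩
    · -- the option never acts
      have hno : ∀ s ≥ s0, ¬ step2 σ c1 c2 i q.1 s q.2.1 x := by
        intro s hs
        have h2 := hstab s hs
        have h3 := hstab (s+1) (by omega)
        rw [st_succ, h2, nxt_some] at h3
        split_ifs at h3 with h4
        · exfalso
          simp only [Option.some.injEq] at h3
          have := congrArg (fun q => q.2.2.length) h3
          simp at this
        · exact cidx_none h4 hxt hxA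
      have hkon := konig (fun n ρ => alive c1 n ρ ∧ (q.1 ≤ n → hasx σ c2 i q.1 x ρ) ∧
          ¬ hasxy σ c2 i n x q.2.1 ρ) ?_ ?_
      · obtain ⟨P1, hP1⟩ := hkon
        obtain ⟨τ, k1, k2, k3, k4⟩ := (hP1 q.1).2.1 (le_refl _)
        obtain ⟨c, hc⟩ := shrink c1 τ (Q := fun a => hasxy σ c2 i a.2 x q.2.1 a.1)
          (hasxy_pr (Primrec.const _) (Primrec.const _) (Primrec.const _) Primrec.snd
            (Primrec.const _) (Primrec.const _) Primrec.fst)
        refine ⟨τ, c, k2, fun P hP => ((hc P).1 hP).1, ⟨P1, (hc P1).2 ⟨mem_of_alive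
          (fun s => (hP1 s).1), ones_res k3, ?_⟩⟩, fun _ P hP => ((hc P).1 hP).2.1, ?_⟩
        · intro n s hh
          exact (hP1 (max n s)).2.2 (hasxy_mono (le_max_right _ _) (res_mono _ (le_max_left _ _)) hh)
        · intro H P hH hP hHP G hG
          rintro ⟨hinf, _⟩
          apply hinf
          refine Set.Finite.subset (Set.finite_lt_nat q.2.1) ?_
          intro y hy
          by_contra hyj
          simp only [Set.mem_ofPred_eq, not_lt] at hy hyj
          rw [hG] at hy
          obtain ⟨n, hn⟩ := hy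
          obtain ⟨u1, hu1⟩ := (out_iff hev).1 (hmono _ _ _ _ (res_mono H (le_max_left n τ.length)) hn)
          have hτH : τ <+: res H (max n τ.length) := by
            have := res_mono H (le_max_right n τ.length)
            rwa [hH] at this
          have hx1 : ev τ (Nat.pair i x) = some 1 := (out_iff hev).2 ⟨_, k4⟩
          obtain ⟨u2, hu2⟩ := (out_iff hev).1 (hmono _ _ _ _ hτH hx1)
          set m := max n τ.length with hm
          apply ((hc P).1 hP).2.2 m (max (max u1 u2) (max m (y+1)))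
          refine ⟨res H m, mem_upTo.2 (by simp), k2.trans hτH, hHP.ones m,
            out_mono (by omega) hu2, y, by omega, hyj, out_mono (by omega) hu1⟩
      · intro n
        have h5 := hno (max (max s0 n) q.1) (by omega)
        unfold step2 at h5
        push Not at h5
        obtain ⟨ρ, e1, e2, e3, e4⟩ := h5
        rw [mem_allStr] at e1
        have hρ := res_getD ρ
        rw [e1] at hρ
        set P := (fun n => ρ.getD n false) with hPdef
        rw [← hρ] at e2 e3 e4
        refine ⟨res P n, by simp, alive_anti (by omega) e2, fun hqn => ?_, fun h6 => e4 ?_⟩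
        · rw [hasx_local (by omega)] at e3
          rw [hasx_local hqn]
          exact e3
        · exact hasxy_mono (by omega) (res_mono _ (by omega)) h6
      · rintro n P ⟨e1, e2, e3⟩
        refine ⟨alive_anti (by omega) e1, fun hqn => ?_, fun h6 => e3 ?_⟩
        · have := e2 (by omega)
          rw [hasx_local (by omega)] at this
          rw [hasx_local hqn]
          exact this
        · exact hasxy_mono (by omega) (res_mono _ (by omega)) h6
  · -- the first step is never completed: no output at all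
    push Not at h1
    obtain ⟨P1, hP1⟩ := konig (fun n ρ => alive c1 n ρ ∧ ∀ x < n, ¬ hasx σ c2 i n x ρ) (by
        intro n
        have h5 := h1 n
        unfold step1 at h5
        push Not at h5
        obtain ⟨ρ, e1, e2, e3⟩ := h5
        exact ⟨ρ, mem_allStr.1 e1, e2, e3⟩) (by
        rintro n P ⟨e1, e2⟩
        exact ⟨alive_anti (by omega) e1, fun x hx h6 =>
          e2 x (by omega) (hasx_mono (by omega) (res_mono _ (by omega)) h6)⟩)
    obtain ⟨c, hc⟩ := shrink c1 [] (Q := fun a => ∃ x < a.2, hasx σ c2 i a.2 x a.1)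
          (pex_lt Primrec.snd (hasx_pr (Primrec.const _) (Primrec.const _) (Primrec.const _)
            (Primrec.snd.comp Primrec.snd) Primrec.fst (Primrec.fst.comp Primrec.snd)))
    refine ⟨σ, c, List.prefix_refl _, fun P hP => ((hc P).1 hP).1, ⟨P1, (hc P1).2 ⟨mem_of_alive
      (fun s => (hP1 s).1), by intro z hz; simp at hz, ?_⟩⟩, fun h P hP => h P ((hc P).1 hP).1, ?_⟩
    · rintro n s ⟨x, hx, hh⟩
      exact (hP1 (max n s)).2 x (by omega)
        (hasx_mono (le_max_right _ _) (res_mono _ (le_max_left _ _)) hh)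
    · intro H P hH hP hHP G hG
      rintro ⟨hinf, _⟩
      obtain ⟨y, hy⟩ := hinf.nonempty
      simp only [Set.mem_ofPred_eq] at hy
      rw [hG] at hy
      obtain ⟨n, hn⟩ := hy
      obtain ⟨u1, hu1⟩ := (out_iff hev).1 (hmono _ _ _ _ (res_mono H (le_max_left n σ.length)) hn)
      have hτH : σ <+: res H (max n σ.length) := by
        have := res_mono H (le_max_right n σ.length)
        rwa [hH] at this
      set m := max n σ.length with hm
      refine ((hc P).1 hP).2.2 m (max u1 (max m (y+1))) ⟨y, by omega, ?_⟩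
      exact ⟨res H m, mem_upTo.2 (by simp), hτH, hHP.ones m, out_mono (by omega) hu1⟩

end

end Run7.h103
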