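import Pool.Agent.Run7.h103.Gadget

set_option autoImplicit false

namespace Run7.h103

open Nat.Partrec (Code)
open Nat.Partrec.Code (evaln eval)
open scoped Classical

/-- data: the string, the code of the forbidden strings, the code of the functional, the index -/
abbrev Dat := Str × Code × Code × ℕ

noncomputable def cidx (p : Dat) (s : ℕ) (q : ℕ × ℕ × List ℕ) : ℕ :=
  (List.range q.1).findIdx
    (fun x => decide (x ∉ q.2.2 ∧ step2 p.1 p.2.1 p.2.2.1 p.2.2.2 q.1 s q.2.1 x))

noncomputable def nxt (p : Dat) (s : ℕ) (r : Option (ℕ × ℕ × List ℕ)) :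
    Option (ℕ × ℕ × List ℕ) :=
  r.casesOn (if step1 p.1 p.2.1 p.2.2.1 p.2.2.2 s then some (s, s, []) else none)
    (fun q => if cidx p s q < q.1 then some (q.1, s, cidx p s q :: q.2.2) else some q)

noncomputable def st (p : Dat) (s : ℕ) : Option (ℕ × ℕ × List ℕ) :=
  Nat.rec none (fun s ih => nxt p s ih) s

lemma st_zero (p : Dat) : st p 0 = none := rfl
lemma st_succ (p : Dat) (s : ℕ) : st p (s+1) = nxt p s (st p s) := rfl

noncomputable def con (p : Dat) (s : ℕ) : Option (ℕ × ℕ) :=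
  (st p s).bind (fun q => if cidx p s q < q.1 then some (cidx p s q, q.2.1) else none)

lemma cidx_spec {p : Dat} {s : ℕ} {q : ℕ × ℕ × List ℕ} (h : cidx p s q < q.1) :
    cidx p s q ∉ q.2.2 ∧ step2 p.1 p.2.1 p.2.2.1 p.2.2.2 q.1 s q.2.1 (cidx p s q) := by
  have h' : (List.range q.1).findIdx (fun x => decide (x ∉ q.2.2 ∧
    step2 p.1 p.2.1 p.2.2.1 p.2.2.2 q.1 s q.2.1 x)) < (List.range q.1).length := by
    rw [List.length_range]; exact h
  have := List.findIdx_getElem (w := h')
  simp only [List.getElem_range, decide_eq_true_eq] at this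
  exact this

lemma cidx_none {p : Dat} {s : ℕ} {q : ℕ × ℕ × List ℕ} (h : ¬ cidx p s q < q.1) {x : ℕ}
    (hx : x < q.1) (hxa : x ∉ q.2.2) : ¬ step2 p.1 p.2.1 p.2.2.1 p.2.2.2 q.1 s q.2.1 x := by
  intro h2
  apply h
  have : (List.range q.1).findIdx (fun x => decide (x ∉ q.2.2 ∧
    step2 p.1 p.2.1 p.2.2.1 p.2.2.2 q.1 s q.2.1 x)) < (List.range q.1).length := by
    rw [List.findIdx_lt_length]
    exact ⟨x, by simpa using hx, by simp [hxa, h2]⟩
  rw [List.length_range] at this
  exact this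

/-! computability -/

lemma cidx_primrec : Primrec (fun a : (Dat × ℕ) × (ℕ × ℕ × List ℕ) => cidx a.1.1 a.1.2 a.2) := by
  refine Primrec.list_findIdx (Primrec.list_range.comp (Primrec.fst.comp Primrec.snd)) ?_
  have hmem : PrimrecRel (fun (x : ℕ) (L : List ℕ) => x ∈ L) := by
    have h1 : PrimrecRel (fun (b : ℕ) (a : ℕ × List ℕ) => b = a.1) :=
      Primrec.eq.comp Primrec.fst (Primrec.fst.comp Primrec.snd)
    have h2 : PrimrecPred (fun a : ℕ × List ℕ => ∃ b ∈ a.2, b = a.1) :=
      pex_list Primrec.snd h1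
    exact h2.of_eq (by simp)
  have h : PrimrecPred (fun a : ((Dat × ℕ) × (ℕ × ℕ × List ℕ)) × ℕ =>
      (a.2 ∉ a.1.2.2.2 ∧ step2 a.1.1.1.1 a.1.1.1.2.1 a.1.1.1.2.2.1 a.1.1.1.2.2.2 a.1.2.1 a.1.1.2
        a.1.2.2.1 a.2)) := by
    have f1 : Primrec (fun a : ((Dat × ℕ) × (ℕ × ℕ × List ℕ)) × ℕ => a.1.1.1) :=
      Primrec.fst.comp (Primrec.fst.comp Primrec.fst)
    have f2 : Primrec (fun a : ((Dat × ℕ) × (ℕ × ℕ × List ℕ)) × ℕ => a.1.1.2) :=
      Primrec.snd.comp (Primrec.fst.comp Primrec.fst)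
    have f3 : Primrec (fun a : ((Dat × ℕ) × (ℕ × ℕ × List ℕ)) × ℕ => a.1.2) :=
      Primrec.snd.comp Primrec.fst
    refine PrimrecPred.and (PrimrecPred.not (hmem.comp Primrec.snd
      (Primrec.snd.comp (Primrec.snd.comp f3)))) ?_
    exact step2_pr (Primrec.fst.comp f1) (Primrec.fst.comp (Primrec.snd.comp f1))
      (Primrec.fst.comp (Primrec.snd.comp (Primrec.snd.comp f1)))
      (Primrec.snd.comp (Primrec.snd.comp (Primrec.snd.comp f1)))
      (Primrec.fst.comp f3) f2 (Primrec.fst.comp (Primrec.snd.comp f3)) Primrec.snd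
  exact h.decide

lemma nxt_primrec : Primrec (fun a : (Dat × ℕ) × Option (ℕ × ℕ × List ℕ) => nxt a.1.1 a.1.2 a.2) := by
  unfold nxt
  refine Primrec.option_casesOn Primrec.snd ?_ ?_
  · refine Primrec.ite ?_ ?_ (Primrec.const _)
    · have f1 : Primrec (fun a : (Dat × ℕ) × Option (ℕ × ℕ × List ℕ) => a.1.1) :=
        Primrec.fst.comp Primrec.fst
      have f2 : Primrec (fun a : (Dat × ℕ) × Option (ℕ × ℕ × List ℕ) => a.1.2) :=
        Primrec.snd.comp Primrec.fst
      exact step1_pr (Primrec.fst.comp f1) (Primrec.fst.comp (Primrec.snd.comp f1))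
        (Primrec.fst.comp (Primrec.snd.comp (Primrec.snd.comp f1)))
        (Primrec.snd.comp (Primrec.snd.comp (Primrec.snd.comp f1))) f2
    · exact Primrec.option_some.comp ((Primrec.snd.comp Primrec.fst).pair
        ((Primrec.snd.comp Primrec.fst).pair (Primrec.const _)))
  · have g1 : Primrec (fun a : ((Dat × ℕ) × Option (ℕ × ℕ × List ℕ)) × (ℕ × ℕ × List ℕ) =>
        cidx a.1.1.1 a.1.1.2 a.2) :=
      cidx_primrec.comp ((Primrec.fst.comp Primrec.fst).pair Primrec.snd)
    refine Primrec.ite (Primrec.nat_lt.comp g1 (Primrec.fst.comp Primrec.snd)) ?_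
      (Primrec.option_some.comp Primrec.snd)
    refine Primrec.option_some.comp ?_
    refine (Primrec.fst.comp Primrec.snd).pair ((Primrec.snd.comp (Primrec.fst.comp Primrec.fst)).pair ?_)
    exact Primrec.list_cons.comp g1 (Primrec.snd.comp (Primrec.snd.comp Primrec.snd))

lemma st_primrec : Primrec₂ st := by
  have h : Primrec₂ (fun (a : Dat × ℕ) (q : ℕ × Option (ℕ × ℕ × List ℕ)) => nxt a.1 q.1 q.2) := by
    exact nxt_primrec.comp (((Primrec.fst.comp Primrec.fst).pair (Primrec.fst.comp Primrec.snd)).pair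
      (Primrec.snd.comp Primrec.snd))
  exact (Primrec.nat_rec' (f := fun a : Dat × ℕ => a.2) (g := fun _ => none) Primrec.snd
    (Primrec.const _) h)

lemma con_primrec : Primrec₂ con := by
  refine Primrec.option_bind st_primrec ?_
  have g1 : Primrec (fun a : (Dat × ℕ) × (ℕ × ℕ × List ℕ) =>
      cidx a.1.1 a.1.2 a.2) := cidx_primrec
  refine Primrec.ite (Primrec.nat_lt.comp g1 (Primrec.fst.comp Primrec.snd)) ?_
      (Primrec.const _)
  exact Primrec.option_some.comp (g1.pair (Primrec.fst.comp (Primrec.snd.comp Primrec.snd)))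

lemma gtree_primrec : PrimrecPred (fun a : Dat × Str => gtree (con a.1) a.2) := by
  refine pall_lt (Primrec.list_length.comp Primrec.snd) ?_
  -- a : ℕ × (Dat × Str)
  have h1 : Primrec (fun a : ℕ × (Dat × Str) => (con a.2.1 a.1).toList) := by
    have : Primrec (fun a : ℕ × (Dat × Str) => con a.2.1 a.1) :=
      con_primrec.comp (Primrec.fst.comp Primrec.snd) Primrec.fst
    exact Primrec.optionToList.comp this
  refine pall_list h1 ?_
  -- a : (ℕ × ℕ) × (ℕ × (Dat × Str))
  refine pall_lt (Primrec.fst.comp Primrec.snd) ?_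
  -- a : ℕ × ((ℕ × ℕ) × (ℕ × (Dat × Str)))
  have e1 : Primrec (fun a : ℕ × ((ℕ × ℕ) × (ℕ × (Dat × Str))) => a.1) := Primrec.fst
  have e2 : Primrec (fun a : ℕ × ((ℕ × ℕ) × (ℕ × (Dat × Str))) => a.2.1.1) :=
    Primrec.fst.comp (Primrec.fst.comp Primrec.snd)
  have e3 : Primrec (fun a : ℕ × ((ℕ × ℕ) × (ℕ × (Dat × Str))) => a.2.1.2) :=
    Primrec.snd.comp (Primrec.fst.comp Primrec.snd)
  have e4 : Primrec (fun a : ℕ × ((ℕ × ℕ) × (ℕ × (Dat × Str))) => a.2.2.2.2) :=
    Primrec.snd.comp (Primrec.snd.comp (Primrec.snd.comp Primrec.snd))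
  refine PrimrecPred.imp' (Primrec.nat_le.comp e3 e1) ?_
  exact PrimrecPred.not (Primrec.eq.comp (Primrec.list_getElem?.comp e4 e1)
    (Primrec.list_getElem?.comp e4 e2))

/-! invariants -/

lemma nxt_none {p : Dat} {s : ℕ} : nxt p s none =
    if step1 p.1 p.2.1 p.2.2.1 p.2.2.2 s then some (s, s, []) else none := rfl

lemma nxt_some {p : Dat} {s : ℕ} {q : ℕ × ℕ × List ℕ} : nxt p s (some q) =
    if cidx p s q < q.1 then some (q.1, s, cidx p s q :: q.2.2) else some q := rfl

lemma st_inv (p : Dat) (s : ℕ) : ∀ q, st p s = some q →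
    q.1 ≤ q.2.1 ∧ q.2.1 < s ∧ q.2.2.Nodup ∧ (∀ x ∈ q.2.2, x < q.1) ∧
      step1 p.1 p.2.1 p.2.2.1 p.2.2.2 q.1 := by
  induction s with
  | zero => intro q hq; simp [st_zero] at hq
  | succ s ih =>
    intro q hq
    rw [st_succ] at hq
    cases h : st p s with
    | none =>
      rw [h, nxt_none] at hq
      split_ifs at hq with h1
      simp only [Option.some.injEq] at hq
      subst hq
      simp [h1]
    | some q0 =>
      obtain ⟨i1, i2, i3, i4, i5⟩ := ih _ h
      rw [h, nxt_some] at hq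
      split_ifs at hq with h1
      · simp only [Option.some.injEq] at hq
        subst hq
        refine ⟨by simp only; omega, by simp only; omega, ?_, ?_, i5⟩
        · simp only [List.nodup_cons]
          exact ⟨(cidx_spec h1).1, i3⟩
        · intro x hx
          simp only [List.mem_cons] at hx
          rcases hx with rfl | hx
          · exact h1
          · exact i4 x hx
      · simp only [Option.some.injEq] at hq
        subst hq
        exact ⟨i1, by omega, i3, i4, i5⟩

lemma st_some_succ {p : Dat} {s : ℕ} {q : ℕ × ℕ × List ℕ} (h : st p s = some q) :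
    ∃ q', st p (s+1) = some q' ∧ q'.1 = q.1 ∧ q.2.1 ≤ q'.2.1 ∧ (∃ L, q'.2.2 = L ++ q.2.2) ∧
      (q' = q ∨ (con p s = some (cidx p s q, q.2.1) ∧ q'.2.1 = s ∧ q'.2.2 = cidx p s q :: q.2.2)) ∧
      ((∀ v, con p s = some v → q'.2.1 = s)) := by
  have hi := st_inv p s q h
  rw [st_succ, h, nxt_some]
  have hcon : con p s = if cidx p s q < q.1 then some (cidx p s q, q.2.1) else none := by
    simp [con, h]
  split_ifs with h1
  · rw [if_pos h1] at hcon
    exact ⟨_, rfl, rfl, by simp only; omega, ⟨[cidx p s q], rfl⟩, Or.inr ⟨hcon, rfl, rfl⟩,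
      fun _ _ => rfl⟩
  · rw [if_neg h1] at hcon
    refine ⟨_, rfl, rfl, le_refl _, ⟨[], rfl⟩, Or.inl rfl, fun v hv => ?_⟩
    rw [hcon] at hv; simp at hv

lemma st_some_le {p : Dat} {s : ℕ} {q : ℕ × ℕ × List ℕ} (h : st p s = some q) {s' : ℕ}
    (hs : s ≤ s') :
    ∃ q', st p s' = some q' ∧ q'.1 = q.1 ∧ q.2.1 ≤ q'.2.1 ∧ (∃ L, q'.2.2 = L ++ q.2.2) := by
  obtain ⟨k, rfl⟩ := Nat.exists_eq_add_of_le hs
  clear hs
  induction k with
  | zero => exact ⟨q, h, rfl, le_refl _, [], rfl⟩
  | succ k ih =>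
    obtain ⟨q', h1, h2, h3, L, h4⟩ := ih
    obtain ⟨q'', g1, g2, g3, ⟨L', g4⟩, _⟩ := st_some_succ h1
    exact ⟨q'', g1, by rw [g2, h2], by omega, L' ++ L, by rw [g4, h4, List.append_assoc]⟩

lemma con_some {p : Dat} {s x j : ℕ} (h : con p s = some (x, j)) :
    ∃ q, st p s = some q ∧ q.2.1 = j ∧ cidx p s q = x ∧ x < q.1 ∧
      step2 p.1 p.2.1 p.2.2.1 p.2.2.2 q.1 s j x := by
  unfold con at h
  rw [Option.bind_eq_some_iff] at h
  obtain ⟨q, hq, h⟩ := h
  split_ifs at h with h1
  simp only [Option.some.injEq, Prod.mk.injEq] at h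
  obtain ⟨h2, h3⟩ := h
  refine ⟨q, hq, h3, h2, h2 ▸ h1, ?_⟩
  have := (cidx_spec h1).2
  rw [h2, h3] at this
  exact this

lemma con_gad (p : Dat) : Gad (con p) := by
  constructor
  · intro s x j h
    obtain ⟨q, h1, h2, h3, h4, _⟩ := con_some h
    have := st_inv p s q h1
    omega
  · intro s s' x j x' j' hlt h h'
    obtain ⟨q, h1, h2, h3, h4, _⟩ := con_some h
    obtain ⟨q', h1', h2', h3', h4', _⟩ := con_some h'
    obtain ⟨r, g1, g2, g3, g4, g5, g6⟩ := st_some_succ h1
    obtain ⟨r', k1, k2, k3, k4⟩ := st_some_le g1 (show s + 1 ≤ s' by omega)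
    rw [h1'] at k1
    simp only [Option.some.injEq] at k1
    subst k1
    have := g6 _ h
    omega

/-- every element of the list of treated options comes from a constraint -/
lemma mem_acted {p : Dat} {s : ℕ} : ∀ q, st p s = some q → ∀ x ∈ q.2.2,
    ∃ s' j, con p s' = some (x, j) ∧ (∃ q', st p s' = some q' ∧ q'.1 = q.1) := by
  induction s with
  | zero => intro q hq; simp [st_zero] at hq
  | succ s ih =>
    intro q hq x hx
    cases h : st p s with
    | none =>
      rw [st_succ, h, nxt_none] at hq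
      split_ifs at hq with h1
      simp only [Option.some.injEq] at hq
      subst hq
      simp at hx
    | some q0 =>
      obtain ⟨r, g1, g2, g3, g4, g5, g6⟩ := st_some_succ h
      rw [hq] at g1
      simp only [Option.some.injEq] at g1
      subst g1
      rcases g5 with rfl | ⟨g5, g7, g8⟩
      · exact ih _ h x hx
      · rw [g8] at hx
        simp only [List.mem_cons] at hx
        rcases hx with rfl | hx
        · exact ⟨s, q0.2.1, g5, q0, h, g2.symm⟩
        · obtain ⟨s', j, e1, q', e2, e3⟩ := ih _ h x hx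
          exact ⟨s', j, e1, q', e2, by rw [e3, g2]⟩

/-- eventually the state is constant -/
lemma st_stable {p : Dat} {s : ℕ} {q : ℕ × ℕ × List ℕ} (h : st p s = some q) :
    ∃ s0 q0, s ≤ s0 ∧ st p s0 = some q0 ∧ q0.1 = q.1 ∧ ∀ s' ≥ s0, st p s' = some q0 := by
  -- the length of the list is bounded
  by_contra hcon
  push Not at hcon
  have key : ∀ n : ℕ, ∃ s1 q1, s ≤ s1 ∧ st p s1 = some q1 ∧ q1.1 = q.1 ∧ n ≤ q1.2.2.length := by
    intro n
    induction n with
    | zero => exact ⟨s, q, le_refl _, h, rfl, Nat.zero_le _⟩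
    | succ n ih =>
      obtain ⟨s1, q1, h1, h2, h3, h4⟩ := ih
      obtain ⟨s2, h5, h6⟩ := hcon s1 q1 h1 h2 h3
      -- some change happens between s1 and s2
      obtain ⟨k, rfl⟩ := Nat.exists_eq_add_of_le h5
      clear h5
      induction k with
      | zero => exact absurd h2 h6
      | succ k ihk =>
        by_cases hk : st p (s1 + k) = some q1
        · obtain ⟨r, g1, g2, g3, g4, g5, g6⟩ := st_some_succ hk
          rcases g5 with rfl | ⟨g5, g7, g8⟩
          · exact absurd g1 h6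
          · exact ⟨s1 + k + 1, r, by omega, g1, by rw [g2, h3], by rw [g8]; simp; omega⟩
        · exact ihk hk
  obtain ⟨s1, q1, h1, h2, h3, h4⟩ := key (q.1 + 1)
  obtain ⟨_, _, i3, i4, _⟩ := st_inv p s1 q1 h2
  have : q1.2.2.length ≤ (List.range q1.1).length := by
    apply List.Nodup.length_le_of_subset i3
    intro x hx
    simpa using i4 x hx
  simp at this
  omega

end Run7.h103
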