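import Pool.Agent.Run7.h103.Base

set_option autoImplicit false

namespace Run7.h103

open Nat.Partrec (Code)
open Nat.Partrec.Code (evaln eval)

section closure
variable {α β : Type*} [Primcodable α] [Primcodable β]

lemma pex_list {f : α → List β} {R : β → α → Prop} (hf : Primrec f) (hR : PrimrecRel R) :
    PrimrecPred (fun a => ∃ b ∈ f a, R b a) :=
  (hR.exists_mem_list.comp hf Primrec.id)

lemma pall_list {f : α → List β} {R : β → α → Prop} (hf : Primrec f) (hR : PrimrecRel R) :
    PrimrecPred (fun a => ∀ b ∈ f a, R b a) :=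
  (hR.forall_mem_list.comp hf Primrec.id)

lemma pex_lt {f : α → ℕ} {R : ℕ → α → Prop} (hf : Primrec f) (hR : PrimrecRel R) :
    PrimrecPred (fun a => ∃ b < f a, R b a) :=
  (pex_list (Primrec.list_range.comp hf) hR).of_eq (by simp)

lemma pall_lt {f : α → ℕ} {R : ℕ → α → Prop} (hf : Primrec f) (hR : PrimrecRel R) :
    PrimrecPred (fun a => ∀ b < f a, R b a) :=
  (pall_list (Primrec.list_range.comp hf) hR).of_eq (by simp)

lemma PrimrecPred.imp' {p q : α → Prop} (hp : PrimrecPred p) (hq : PrimrecPred q) :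
    PrimrecPred (fun a => p a → q a) :=
  (hp.not.or hq).of_eq (fun a => by tauto)

end closure

/-- all strings of length `n` -/
def allStr : ℕ → List Str
  | 0 => [[]]
  | n+1 => (allStr n).flatMap (fun ρ => [ρ ++ [false], ρ ++ [true]])

lemma mem_allStr {n : ℕ} {ρ : Str} : ρ ∈ allStr n ↔ ρ.length = n := by
  induction n generalizing ρ with
  | zero => simp [allStr]
  | succ n ih =>
    simp only [allStr, List.mem_flatMap, List.mem_cons, List.not_mem_nil, or_false]
    constructor
    · rintro ⟨τ, hτ, h | h⟩ <;> simp [h, ih.1 hτ]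
    · intro h
      have hne : ρ ≠ [] := by rintro rfl; simp at h
      refine ⟨ρ.dropLast, ?_, ?_⟩
      · rw [ih]; simp [h]
      · have := List.dropLast_append_getLast hne
        cases hb : ρ.getLast hne
        · left; rw [hb] at this; exact this.symm
        · right; rw [hb] at this; exact this.symm

/-- all strings of length at most `n` -/
def upTo (n : ℕ) : List Str := (List.range (n+1)).flatMap allStr

lemma mem_upTo {n : ℕ} {ρ : Str} : ρ ∈ upTo n ↔ ρ.length ≤ n := by
  simp only [upTo, List.mem_flatMap, List.mem_range, mem_allStr]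
  constructor
  · rintro ⟨a, h, rfl⟩; omega
  · intro h; exact ⟨ρ.length, by omega, rfl⟩

lemma allStr_primrec : Primrec allStr := by
  have h : Primrec₂ (fun (_ : ℕ) (p : ℕ × List Str) =>
      p.2.flatMap (fun ρ => [ρ ++ [false], ρ ++ [true]])) := by
    refine Primrec.list_flatMap (Primrec.snd.comp Primrec.snd) ?_
    have c1 : Primrec (fun q : (ℕ × ℕ × List Str) × Str => q.2 ++ [false]) :=
      Primrec.list_concat.comp Primrec.snd (Primrec.const false)
    have c2 : Primrec (fun q : (ℕ × ℕ × List Str) × Str => q.2 ++ [true]) :=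
      Primrec.list_concat.comp Primrec.snd (Primrec.const true)
    exact Primrec.list_cons.comp c1 (Primrec.list_cons.comp c2 (Primrec.const []))
  have := Primrec.nat_rec' (f := fun n : ℕ => n) (g := fun _ => ([[]] : List Str))
    (h := fun _ p => p.2.flatMap (fun ρ => [ρ ++ [false], ρ ++ [true]]))
    Primrec.id (Primrec.const _) h
  refine this.of_eq (fun n => ?_)
  induction n with
  | zero => rfl
  | succ n ih => rw [allStr, ← ih]

lemma upTo_primrec : Primrec upTo :=
  Primrec.list_flatMap (Primrec.list_range.comp Primrec.succ) (allStr_primrec.comp Primrec.snd).to₂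

lemma ones_primrec : PrimrecRel ones := by
  have : PrimrecPred (fun p : Str × Str => ∀ z < p.1.length, p.1[z]? = some true → p.2[z]? = some true) := by
    refine pall_lt (Primrec.list_length.comp Primrec.fst) ?_
    refine PrimrecPred.imp' ?_ ?_
    · exact Primrec.eq.comp (Primrec.list_getElem?.comp (Primrec.fst.comp Primrec.snd) Primrec.fst)
        (Primrec.const _)
    · exact Primrec.eq.comp (Primrec.list_getElem?.comp (Primrec.snd.comp Primrec.snd) Primrec.fst)
        (Primrec.const _)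
  exact this

lemma take_primrec : Primrec₂ (fun (ρ : Str) (n : ℕ) => ρ.take n) := by
  have : Primrec (fun p : Str × ℕ => (List.range p.2).filterMap (fun i => p.1[i]?)) := by
    refine Primrec.listFilterMap (Primrec.list_range.comp Primrec.snd) ?_
    exact (Primrec.list_getElem?.comp (Primrec.fst.comp Primrec.fst) Primrec.snd)
  refine this.of_eq ?_
  rintro ⟨ρ, n⟩
  simp only
  induction n with
  | zero => simp
  | succ n ih =>
    rw [List.range_succ, List.filterMap_append, ih, List.take_add_one]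
    cases h : ρ[n]? <;> simp [h]

lemma prefix_primrec : PrimrecRel (fun (σ τ : Str) => σ <+: τ) := by
  have : PrimrecPred (fun p : Str × Str => p.2.take p.1.length = p.1) :=
    Primrec.eq.comp (take_primrec.comp Primrec.snd (Primrec.list_length.comp Primrec.fst)) Primrec.fst
  refine this.of_eq ?_
  rintro ⟨σ, τ⟩
  simp only
  rw [List.prefix_iff_eq_take]
  exact eq_comm

/-- at stage `s` the functional `c` outputs `1` on `(τ, z)` -/
def out (c : Code) (s : ℕ) (τ : Str) (z : ℕ) : Prop := evaln s c (Encodable.encode (τ, z)) = some 1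

/-- at stage `s` no initial segment of `ρ` has been enumerated by `c` -/
def alive (c : Code) (s : ℕ) (ρ : Str) : Prop :=
  ∀ n < s + 1, evaln s c (Encodable.encode (ρ.take n)) = none

def hasx (σ : Str) (c : Code) (i t x : ℕ) (ρ : Str) : Prop :=
  ∃ τ ∈ upTo t, σ <+: τ ∧ ones τ ρ ∧ out c t τ (Nat.pair i x)

def hasxy (σ : Str) (c : Code) (i s x j : ℕ) (ρ : Str) : Prop :=
  ∃ τ ∈ upTo s, σ <+: τ ∧ ones τ ρ ∧ out c s τ (Nat.pair i x) ∧
    ∃ y < s, j ≤ y ∧ out c s τ (Nat.pair i y)

def step1 (σ : Str) (c1 c2 : Code) (i t : ℕ) : Prop :=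
  ∀ ρ ∈ allStr t, alive c1 t ρ → ∃ x < t, hasx σ c2 i t x ρ

def step2 (σ : Str) (c1 c2 : Code) (i t s j x : ℕ) : Prop :=
  ∀ ρ ∈ allStr s, alive c1 s ρ → hasx σ c2 i t x ρ → hasxy σ c2 i s x j ρ

section pr
variable {α : Type*} [Primcodable α] {σ τ ρ : α → Str} {c c1 c2 : α → Code}
  {i t s x j z : α → ℕ}

lemma out_pr (hc : Primrec c) (hs : Primrec s) (hτ : Primrec τ) (hz : Primrec z) :
    PrimrecPred (fun a => out (c a) (s a) (τ a) (z a)) := by
  have h1 : Primrec (fun a => evaln (s a) (c a) (Encodable.encode (τ a, z a))) :=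
    Nat.Partrec.Code.primrec_evaln.comp ((hs.pair hc).pair (Primrec.encode.comp (hτ.pair hz)))
  exact Primrec.eq.comp h1 (Primrec.const _)

lemma alive_pr (hc : Primrec c) (hs : Primrec s) (hρ : Primrec ρ) :
    PrimrecPred (fun a => alive (c a) (s a) (ρ a)) := by
  refine pall_lt (Primrec.succ.comp hs) ?_
  have h1 : Primrec (fun a : ℕ × α =>
      evaln (s a.2) (c a.2) (Encodable.encode ((ρ a.2).take a.1))) :=
    Nat.Partrec.Code.primrec_evaln.comp (((hs.comp Primrec.snd).pair (hc.comp Primrec.snd)).pair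
      (Primrec.encode.comp (take_primrec.comp (hρ.comp Primrec.snd) Primrec.fst)))
  exact Primrec.eq.comp h1 (Primrec.const _)

lemma hasx_pr (hσ : Primrec σ) (hc : Primrec c) (hi : Primrec i) (ht : Primrec t)
    (hx : Primrec x) (hρ : Primrec ρ) :
    PrimrecPred (fun a => hasx (σ a) (c a) (i a) (t a) (x a) (ρ a)) := by
  refine pex_list (upTo_primrec.comp ht) ?_
  refine PrimrecPred.and (prefix_primrec.comp (hσ.comp Primrec.snd) Primrec.fst) ?_
  refine PrimrecPred.and (ones_primrec.comp Primrec.fst (hρ.comp Primrec.snd)) ?_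
  exact out_pr (hc.comp Primrec.snd) (ht.comp Primrec.snd) Primrec.fst
    (Primrec₂.natPair.comp (hi.comp Primrec.snd) (hx.comp Primrec.snd))

lemma hasxy_pr (hσ : Primrec σ) (hc : Primrec c) (hi : Primrec i) (hs : Primrec s)
    (hx : Primrec x) (hj : Primrec j) (hρ : Primrec ρ) :
    PrimrecPred (fun a => hasxy (σ a) (c a) (i a) (s a) (x a) (j a) (ρ a)) := by
  refine pex_list (upTo_primrec.comp hs) ?_
  refine PrimrecPred.and (prefix_primrec.comp (hσ.comp Primrec.snd) Primrec.fst) ?_
  refine PrimrecPred.and (ones_primrec.comp Primrec.fst (hρ.comp Primrec.snd)) ?_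
  refine PrimrecPred.and (out_pr (hc.comp Primrec.snd) (hs.comp Primrec.snd) Primrec.fst
    (Primrec₂.natPair.comp (hi.comp Primrec.snd) (hx.comp Primrec.snd))) ?_
  refine pex_lt (hs.comp Primrec.snd) ?_
  refine PrimrecPred.and (Primrec.nat_le.comp (hj.comp (Primrec.snd.comp Primrec.snd)) Primrec.fst) ?_
  exact out_pr (hc.comp (Primrec.snd.comp Primrec.snd)) (hs.comp (Primrec.snd.comp Primrec.snd))
    (Primrec.fst.comp Primrec.snd)
    (Primrec₂.natPair.comp (hi.comp (Primrec.snd.comp Primrec.snd)) Primrec.fst)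

lemma step1_pr (hσ : Primrec σ) (hc1 : Primrec c1) (hc2 : Primrec c2) (hi : Primrec i)
    (ht : Primrec t) :
    PrimrecPred (fun a => step1 (σ a) (c1 a) (c2 a) (i a) (t a)) := by
  refine pall_list (allStr_primrec.comp ht) ?_
  refine PrimrecPred.imp' (alive_pr (hc1.comp Primrec.snd) (ht.comp Primrec.snd) Primrec.fst) ?_
  refine pex_lt (ht.comp Primrec.snd) ?_
  exact hasx_pr (hσ.comp (Primrec.snd.comp Primrec.snd)) (hc2.comp (Primrec.snd.comp Primrec.snd))
    (hi.comp (Primrec.snd.comp Primrec.snd)) (ht.comp (Primrec.snd.comp Primrec.snd))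
    Primrec.fst (Primrec.fst.comp Primrec.snd)

lemma step2_pr (hσ : Primrec σ) (hc1 : Primrec c1) (hc2 : Primrec c2) (hi : Primrec i)
    (ht : Primrec t) (hs : Primrec s) (hj : Primrec j) (hx : Primrec x) :
    PrimrecPred (fun a => step2 (σ a) (c1 a) (c2 a) (i a) (t a) (s a) (j a) (x a)) := by
  refine pall_list (allStr_primrec.comp hs) ?_
  refine PrimrecPred.imp' (alive_pr (hc1.comp Primrec.snd) (hs.comp Primrec.snd) Primrec.fst) ?_
  refine PrimrecPred.imp' ?_ ?_
  · exact hasx_pr (hσ.comp Primrec.snd) (hc2.comp Primrec.snd)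
      (hi.comp Primrec.snd) (ht.comp Primrec.snd) (hx.comp Primrec.snd) Primrec.fst
  · exact hasxy_pr (hσ.comp Primrec.snd) (hc2.comp Primrec.snd)
      (hi.comp Primrec.snd) (hs.comp Primrec.snd) (hx.comp Primrec.snd) (hj.comp Primrec.snd)
      Primrec.fst

end pr

/-! monotonicity -/

lemma out_mono {c : Code} {s s' : ℕ} {τ : Str} {z : ℕ} (h : s ≤ s') (ho : out c s τ z) :
    out c s' τ z :=
  Nat.Partrec.Code.evaln_mono h ho

lemma alive_anti {c : Code} {s s' : ℕ} {P : ℕ → Bool} (h : s ≤ s') (ho : alive c s' (res P s')) :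
    alive c s (res P s) := by
  intro n hn
  have h1 := ho n (by omega)
  rw [res_take P (by omega)] at h1
  rw [res_take P (by omega)]
  by_contra hne
  obtain ⟨v, hv⟩ := Option.ne_none_iff_exists'.1 hne
  have := Nat.Partrec.Code.evaln_mono h (show v ∈ evaln s c _ from hv)
  rw [h1] at this
  simp at this

lemma hasx_mono {σ : Str} {c : Code} {i t t' x : ℕ} {ρ ρ' : Str} (h : t ≤ t') (hp : ρ <+: ρ')
    (ho : hasx σ c i t x ρ) : hasx σ c i t' x ρ' := by
  obtain ⟨τ, h1, h2, h3, h4⟩ := ho
  rw [mem_upTo] at h1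
  exact ⟨τ, mem_upTo.2 (h1.trans h), h2, ones_mono h3 hp, out_mono h h4⟩

lemma hasxy_mono {σ : Str} {c : Code} {i s s' x j : ℕ} {ρ ρ' : Str} (h : s ≤ s') (hp : ρ <+: ρ')
    (ho : hasxy σ c i s x j ρ) : hasxy σ c i s' x j ρ' := by
  obtain ⟨τ, h1, h2, h3, h4, y, hy, h5, h6⟩ := ho
  rw [mem_upTo] at h1
  exact ⟨τ, mem_upTo.2 (h1.trans h), h2, ones_mono h3 hp, out_mono h h4, y, by omega, h5,
    out_mono h h6⟩

/-- a short `τ` only looks at an initial segment -/
lemma hasx_local {σ : Str} {c : Code} {i t x s : ℕ} {P : ℕ → Bool} (h : t ≤ s) :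
    hasx σ c i t x (res P s) ↔ hasx σ c i t x (res P t) := by
  constructor
  · rintro ⟨τ, h1, h2, h3, h4⟩
    rw [mem_upTo] at h1
    refine ⟨τ, mem_upTo.2 h1, h2, ?_, h4⟩
    intro z hz hh
    have := h3 z hz hh
    rw [res_get] at this ⊢
    rw [if_pos (by omega)] at this ⊢
    exact this
  · intro hh
    obtain ⟨τ, h1, h2, h3, h4⟩ := hh
    exact ⟨τ, h1, h2, ones_mono h3 (res_mono P h), h4⟩

end Run7.h103
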